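import Mathlib

/-!
# Zero-absent uniform colourings of block designs
-/

set_option autoImplicit false

open Finset

namespace Pool.Agent.N38.ULSE

/-- A `(v, k, lam)`-BIBD with point set `V` and blocks `B i`, `i ∈ ι` (repeated blocks are
allowed). -/
structure IsBIBD {V ι : Type} [Fintype V] [Fintype ι] [DecidableEq V] (B : ι → Finset V)
    (v k lam : ℕ) : Prop where
  two_le : 2 ≤ k
  lt : k < v
  card_points : Fintype.card V = v
  card_block : ∀ i, (B i).card = k
  card_pair : ∀ x y, x ≠ y → (univ.filter (fun i => x ∈ B i ∧ y ∈ B i)).card = lam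

/-- The design is symmetric: the number of blocks is the number of points. -/
def IsSymmetric {V ι : Type} [Fintype V] [Fintype ι] [DecidableEq V] (B : ι → Finset V)
    (v k lam : ℕ) : Prop := IsBIBD B v k lam ∧ Fintype.card ι = v

/-- `f` is a `0`-ULSE `l`-colouring: all `l` colours are used, `l - 1` divides `k`, and in every
block exactly one colour does not occur while each of the others occurs exactly `k / (l - 1)`
times. -/
structure IsULSE {V ι : Type} [Fintype V] [Fintype ι] [DecidableEq V] (B : ι → Finset V)
    (k l : ℕ) (f : V → Fin l) : Prop where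
  surj : Function.Surjective f
  dvd : (l - 1) ∣ k
  missing : ∀ i, ∃! c, ∀ x ∈ B i, f x ≠ c
  others : ∀ i c, (∃ x ∈ B i, f x = c) → ((B i).filter (fun x => f x = c)).card = k / (l - 1)

variable {V ι : Type} [Fintype V] [Fintype ι] [DecidableEq V] {B : ι → Finset V}
  {v k lam : ℕ}

/-- Every point lies in `lam (v - 1) / (k - 1)` blocks. -/
theorem IsBIBD.replication (h : IsBIBD B v k lam) (x : V) :
    (univ.filter (fun i => x ∈ B i)).card * (k - 1) = lam * (v - 1) := by
  classical
  have h1 : ∑ i, ∑ y ∈ univ.erase x, (if x ∈ B i ∧ y ∈ B i then 1 else 0) = lam * (v - 1) := by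
    rw [sum_comm]
    have : ∀ y ∈ univ.erase x, ∑ i, (if x ∈ B i ∧ y ∈ B i then 1 else 0) = lam := by
      intro y hy
      rw [← h.card_pair x y (ne_of_mem_erase hy).symm, card_filter]
    rw [sum_congr rfl this, sum_const, card_erase_of_mem (mem_univ x), card_univ,
      h.card_points, smul_eq_mul, mul_comm]
  have h2 : ∀ i, ∑ y ∈ univ.erase x, (if x ∈ B i ∧ y ∈ B i then 1 else 0) =
      if x ∈ B i then (k - 1) else 0 := by
    intro i
    by_cases hx : x ∈ B i
    · simp only [hx, true_and, if_true]
      rw [← card_filter, ← h.card_block i, ← card_erase_of_mem hx]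
      congr 1
      ext y
      simp [and_comm]
    · simp [hx]
  rw [sum_congr rfl (fun i _ => h2 i), ← sum_filter, sum_const, smul_eq_mul] at h1
  exact h1

/-- A double counting for one colour class. -/
theorem class_count (h : IsBIBD B v k lam) {l : ℕ} {f : V → Fin l} (hf : IsULSE B k l f)
    (c : Fin l) {r : ℕ} (hr : ∀ x, (univ.filter (fun i => x ∈ B i)).card = r) :
    ((univ.filter (fun x => f x = c)).card - 1) * lam = (k / (l - 1) - 1) * r := by
  classical
  set C := univ.filter (fun x => f x = c) with hC
  have hpos : 0 < C.card := by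
    obtain ⟨x, hx⟩ := hf.surj c
    exact card_pos.2 ⟨x, by simp [hC, hx]⟩
  -- pairs of different points of the class
  have h1 : ∑ x ∈ C, ∑ y ∈ C.erase x, ∑ i, (if x ∈ B i ∧ y ∈ B i then 1 else 0) =
      C.card * ((C.card - 1) * lam) := by
    have : ∀ x ∈ C, ∑ y ∈ C.erase x, ∑ i, (if x ∈ B i ∧ y ∈ B i then 1 else 0) =
        (C.card - 1) * lam := by
      intro x hx
      have : ∀ y ∈ C.erase x, ∑ i, (if x ∈ B i ∧ y ∈ B i then 1 else 0) = lam := by
        intro y hy
        rw [← h.card_pair x y (ne_of_mem_erase hy).symm, card_filter]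
      rw [sum_congr rfl this, sum_const, card_erase_of_mem hx, smul_eq_mul]
    rw [sum_congr rfl this, sum_const, smul_eq_mul]
  have h2 : ∀ i, ∀ x ∈ C, ∑ y ∈ C.erase x, (if x ∈ B i ∧ y ∈ B i then 1 else 0) =
      if x ∈ B i then (k / (l - 1) - 1) else 0 := by
    intro i x hx
    by_cases hxB : x ∈ B i
    · simp only [hxB, true_and, if_true]
      have hfx : f x = c := by simpa [hC] using hx
      rw [← hf.others i c ⟨x, hxB, hfx⟩, ← card_filter,
        ← card_erase_of_mem (s := (B i).filter (fun x => f x = c)) (a := x)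
          (by simp [hxB, hfx])]
      congr 1
      ext y
      simp only [hC, mem_filter, mem_erase, mem_univ, true_and]
      tauto
    · simp [hxB]
  have h3 : ∑ x ∈ C, ∑ y ∈ C.erase x, ∑ i, (if x ∈ B i ∧ y ∈ B i then 1 else 0) =
      C.card * ((k / (l - 1) - 1) * r) := by
    have : ∀ x ∈ C, ∑ y ∈ C.erase x, ∑ i, (if x ∈ B i ∧ y ∈ B i then 1 else 0) =
        (k / (l - 1) - 1) * r := by
      intro x hx
      rw [sum_comm, sum_congr rfl (fun i _ => h2 i x hx), ← sum_filter, sum_const, smul_eq_mul,
        hr x, mul_comm]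
    rw [sum_congr rfl this, sum_const, smul_eq_mul]
  exact Nat.eq_of_mul_eq_mul_left hpos (h1.symm.trans h3)

/-- **Necessary condition.** In a design with a `0`-ULSE `l`-colouring all colour classes have
`v / l` points; in particular `l` divides `v`. -/
theorem card_class (h : IsBIBD B v k lam) {l : ℕ} {f : V → Fin l} (hf : IsULSE B k l f)
    (hlam : 0 < lam) (c : Fin l) : l * (univ.filter (fun x => f x = c)).card = v := by
  classical
  -- the replication number
  have hk : 0 < k - 1 := by have := h.two_le; omega
  obtain ⟨x0, _⟩ := hf.surj c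
  set r := (univ.filter (fun i => x0 ∈ B i)).card with hr0
  have hr : ∀ x, (univ.filter (fun i => x ∈ B i)).card = r := by
    intro x
    have h1 := h.replication x
    have h2 := h.replication x0
    exact Nat.eq_of_mul_eq_mul_right hk (h1.trans h2.symm)
  have hpos : ∀ c : Fin l, 0 < (univ.filter (fun x => f x = c)).card := by
    intro c
    obtain ⟨x, hx⟩ := hf.surj c
    exact card_pos.2 ⟨x, by simp [hx]⟩
  have hall : ∀ d : Fin l, (univ.filter (fun x => f x = d)).card =
      (univ.filter (fun x => f x = c)).card := by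
    intro d
    have h1 := class_count h hf c hr
    have h2 := class_count h hf d hr
    have h3 := Nat.eq_of_mul_eq_mul_right hlam (h2.trans h1.symm)
    have := hpos c
    have := hpos d
    omega
  have hsum : ∑ d : Fin l, (univ.filter (fun x => f x = d)).card = v := by
    rw [← h.card_points, ← card_univ]
    exact (card_eq_sum_card_fiberwise (fun x _ => mem_univ (f x))).symm
  rw [sum_congr rfl (fun d _ => hall d), sum_const, card_univ, Fintype.card_fin,
    smul_eq_mul] at hsum
  exact hsum

end Pool.Agent.N38.ULSE
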