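import Pool.Agent.N38.ULSE.Def

/-!
# Complements of projective planes and the design on 16 points
-/

set_option autoImplicit false

open Finset Configuration
open scoped LinearAlgebra.Projectivization

namespace Pool.Agent.N38.ULSE

/-- The complements of the lines of a finite projective plane of order `n` form a symmetric
`(n ^ 2 + n + 1, n ^ 2, n ^ 2 - n)`-design. -/
theorem plane_design {P L : Type} [Fintype P] [Fintype L] [DecidableEq P] [Membership P L]
    [ProjectivePlane P L] {n : ℕ} (hn : ProjectivePlane.order P L = n)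
    [∀ (p : P) (l : L), Decidable (p ∈ l)] :
    IsSymmetric (fun l : L => univ.filter (fun p : P => p ∉ l)) (n ^ 2 + n + 1) (n ^ 2)
      (n ^ 2 - n) := by
  classical
  have h1 : 1 < n := hn ▸ ProjectivePlane.one_lt_order P L
  have hline : ∀ p : P, (univ.filter (fun l : L => p ∈ l)).card = n + 1 := by
    intro p
    have := ProjectivePlane.lineCount_eq (L := L) p
    rw [hn, lineCount, Nat.card_eq_fintype_card, Fintype.card_subtype] at this
    exact this
  have hpoint : ∀ l : L, (univ.filter (fun p : P => p ∈ l)).card = n + 1 := by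
    intro l
    have := ProjectivePlane.pointCount_eq (P := P) l
    rw [hn, pointCount, Nat.card_eq_fintype_card, Fintype.card_subtype] at this
    exact this
  have hP : Fintype.card P = n ^ 2 + n + 1 := hn ▸ ProjectivePlane.card_points P L
  have hL : Fintype.card L = n ^ 2 + n + 1 := hn ▸ ProjectivePlane.card_lines P L
  refine ⟨⟨by nlinarith, by omega, hP, ?_, ?_⟩, hL⟩
  · intro l
    have h2 := card_filter_add_card_filter_not (s := (univ : Finset P)) (fun p => p ∈ l)
    rw [hpoint, card_univ, hP] at h2
    show (univ.filter (fun p : P => p ∉ l)).card = _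
    omega
  · intro x y hxy
    have hone : (univ.filter (fun l : L => x ∈ l ∧ y ∈ l)).card = 1 := by
      obtain ⟨l, hl, hu⟩ := HasLines.existsUnique_line P L x y hxy
      rw [card_eq_one]
      refine ⟨l, ?_⟩
      ext m
      simp only [mem_filter, mem_univ, true_and, mem_singleton]
      exact ⟨fun h => hu m h, fun h => h ▸ hl⟩
    have h3 := card_union_add_card_inter (univ.filter (fun l : L => x ∈ l))
      (univ.filter (fun l : L => y ∈ l))
    rw [hline, hline, ← filter_and, hone, ← filter_or] at h3
    have h4 := card_filter_add_card_filter_not (s := (univ : Finset L)) (fun l => x ∈ l ∨ y ∈ l)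
    rw [card_univ, hL] at h4
    have h5 : (univ.filter (fun l : L => x ∈ univ.filter (fun p : P => p ∉ l) ∧
        y ∈ univ.filter (fun p : P => p ∉ l))) = univ.filter (fun l : L => ¬ (x ∈ l ∨ y ∈ l)) := by
      ext l
      simp [not_or]
    rw [h5]
    have h6 : n ≤ n ^ 2 := by nlinarith
    omega

/-- For every prime power `q` there is a symmetric `(q ^ 2 + q + 1, q ^ 2, q ^ 2 - q)`-design. -/
theorem exists_plane_design (q : ℕ) (hq : IsPrimePow q) :
    ∃ (V ι : Type) (_ : Fintype V) (_ : Fintype ι) (_ : DecidableEq V) (B : ι → Finset V),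
      IsSymmetric B (q ^ 2 + q + 1) (q ^ 2) (q ^ 2 - q) := by
  classical
  obtain ⟨p, e, hp, he, rfl⟩ := hq
  have hp' : p.Prime := hp.nat_prime
  have : Fact p.Prime := ⟨hp'⟩
  let K := GaloisField p e
  have : Finite K := inferInstance
  have hK : Nat.card K = p ^ e := GaloisField.card p e he.ne'
  letI : Fintype (ℙ K (Fin 3 → K)) := Fintype.ofFinite _
  have hcard : Fintype.card (ℙ K (Fin 3 → K)) = (p ^ e) ^ 2 + p ^ e + 1 := by
    have := Projectivization.card_of_finrank K (Fin 3 → K) (n := 3) (by simp)
    rw [hK, Nat.card_eq_fintype_card] at this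
    rw [this]
    simp [Finset.sum_range_succ]
    ring
  have hord : ProjectivePlane.order (ℙ K (Fin 3 → K)) (ℙ K (Fin 3 → K)) = p ^ e := by
    have h := ProjectivePlane.card_points (ℙ K (Fin 3 → K)) (ℙ K (Fin 3 → K))
    rw [hcard] at h
    set m := ProjectivePlane.order (ℙ K (Fin 3 → K)) (ℙ K (Fin 3 → K))
    set r := p ^ e
    rcases lt_trichotomy m r with h' | h' | h'
    · nlinarith
    · exact h'
    · nlinarith
  exact ⟨_, _, _, _, _, _, plane_design hord⟩

/-- The symmetric `(16, 10, 6)`-design on `Fin 4 × Fin 4`. -/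
def D16 (c : Fin 4 × Fin 4) : Finset (Fin 4 × Fin 4) :=
  univ.filter (fun x => (x.1 = c.1 ↔ x.2 = c.2))

theorem D16_design : IsSymmetric D16 16 10 6 :=
  ⟨⟨by norm_num, by norm_num, by decide, by decide, by decide +kernel⟩, by decide⟩

end Pool.Agent.N38.ULSE
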